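import Pool.Agent.Helper44_LAP.Tup

/-!
# LAP: module MCD (bounded differences inequality for fair coins)
-/

set_option autoImplicit false

namespace Pool.Agent.LAP.H18

open scoped Classical
open Pool.Agent.LAP.H44

theorem pr_le_one {U S : Type} [Fintype U] [Fintype S] [Nonempty S] (A : Set (U → S)) :
    pr A ≤ 1 := by
  refine pr_le _ _ ?_
  rw [one_mul]
  exact_mod_cast Finset.card_le_univ _

/-- MCD. -/
theorem mcd : MCDStmt := by
  intro U _ f c s t hc hcs hs ht
  rcases ht.eq_or_lt with rfl | ht0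
  · have h : Real.exp (-(2 * (0 : ℝ) ^ 2 / s)) = 1 := by simp
    rw [h]
    exact ⟨pr_le_one _, pr_le_one _⟩
  · have ha : 2 * t ^ 2 / s * ∑ v, c v ^ 2 ≤ 2 * t ^ 2 := by
      calc 2 * t ^ 2 / s * ∑ v, c v ^ 2 ≤ 2 * t ^ 2 / s * s :=
            mul_le_mul_of_nonneg_left hcs (by positivity)
        _ = 2 * t ^ 2 := div_mul_cancel₀ _ hs.ne'
    constructor
    · refine pr_le _ _ ?_
      have := Pool.Agent.Helper13_Conc.mcdB_upper (V := U) f c hc (2 * t ^ 2 / s) t ha ht0
        (fun ω => ω ∈ {ω : U → Bool | ex f + t ≤ f ω}) (fun ω hω => by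
          rw [← ex_eq_mean]
          exact hω)
      convert this
    · refine pr_le _ _ ?_
      have := Pool.Agent.Helper13_Conc.mcdB_lower (V := U) f c hc (2 * t ^ 2 / s) t ha ht0
        (fun ω => ω ∈ {ω : U → Bool | f ω ≤ ex f - t}) (fun ω hω => by
          rw [← ex_eq_mean]
          exact hω)
      convert this

end Pool.Agent.LAP.H18
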