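import Pool.Agent.Helper44_LAP.Tup

/-!
# LAP: module THL (lower tail for a random thinning)
-/

set_option autoImplicit false

namespace Pool.Agent.LAP.H18

open scoped Classical
open Pool.Agent.LAP.H44

theorem ex_coord {U S : Type} [Fintype U] [Fintype S] [Nonempty S] (u : U) (w : ℝ)
    (g : Finset S) : ex (fun ω : U → S => if ω u ∈ g then w else 0) =
      w * ((g.card : ℝ) / (Fintype.card S : ℝ)) := by
  rw [ex_eq_mean, Pool.Agent.Helper13_Conc.mean_coord u (fun a => if a ∈ g then w else 0)]
  rw [Finset.sum_ite_mem, Finset.univ_inter, Finset.sum_const, nsmul_eq_mul]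
  ring

/-- THL. -/
theorem thl (hTLO : TLOStmt) : THLStmt := by
  intro U S _ _ _ I w g b e t μ hb he0 he1 hμ0 hw hμ
  refine hTLO U S U I (fun u ω => if ω u ∈ g u then w u else 0) (fun u => {u}) b e t μ hb he0 he1
    hμ0 ?_ ?_ ?_ ?_
  · intro u hu ω
    split_ifs
    · exact hw u hu
    · exact ⟨le_rfl, hb.le⟩
  · intro u _ ω ω' h
    simp only [h u (Finset.mem_singleton_self u)]
  · intro i _ j _ hij
    rw [Finset.disjoint_singleton]
    exact hij
  · simp only [ex_coord]
    exact hμ

end Pool.Agent.LAP.H18
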